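import Pool.Agent.helper82.LEQ.Spec

set_option autoImplicit false

namespace LEQ

open scoped BigOperators
open QS (Lef EAb)

theorem DEC_sup {G : Type} [Group G] {F D : Subgroup G} (h : ∀ x ∈ F, ∀ y ∈ D, x * y = y * x)
    {x : G} (hx : x ∈ F ⊔ D) : ∃ f ∈ F, ∃ d ∈ D, f * d = x := by
  have h1 : F ⊔ D ≤
      ({ carrier := {x | ∃ f ∈ F, ∃ d ∈ D, f * d = x}
         one_mem' := ⟨1, F.one_mem, 1, D.one_mem, mul_one 1⟩
         mul_mem' := by
          rintro a b ⟨f, hf, d, hd, rfl⟩ ⟨f', hf', d', hd', rfl⟩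
          refine ⟨f * f', F.mul_mem hf hf', d * d', D.mul_mem hd hd', ?_⟩
          calc f * f' * (d * d') = f * (f' * d) * d' := by group
            _ = f * (d * f') * d' := by rw [h f' hf' d hd]
            _ = f * d * (f' * d') := by group
         inv_mem' := by
          rintro a ⟨f, hf, d, hd, rfl⟩
          refine ⟨f⁻¹, F.inv_mem hf, d⁻¹, D.inv_mem hd, ?_⟩
          rw [mul_inv_rev]
          exact h _ (F.inv_mem hf) _ (D.inv_mem hd) } : Subgroup G) := by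
    apply sup_le
    · intro a ha
      exact ⟨a, ha, 1, D.one_mem, mul_one a⟩
    · intro a ha
      exact ⟨1, F.one_mem, a, ha, one_mul a⟩
  exact h1 hx

theorem DEC_stb {G : Type} [Group G] {g : G} {E : Subgroup G} :
    Stb g E ↔ E.map (MulAut.conj g).toMonoidHom = E := by
  constructor
  · intro h
    apply le_antisymm
    · rintro _ ⟨x, hx, rfl⟩
      exact (h x).1 hx
    · intro x hx
      refine ⟨g⁻¹ * x * g, ?_, ?_⟩
      · apply (h _).2
        have : g * (g⁻¹ * x * g) * g⁻¹ = x := by group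
        rw [this]
        exact hx
      · show g * (g⁻¹ * x * g) * g⁻¹ = x
        group
  · intro h x
    constructor
    · intro hx
      rw [← h]
      exact ⟨x, hx, rfl⟩
    · intro hx
      rw [← h] at hx
      obtain ⟨y, hy, hxy⟩ := hx
      have h1 : g * y * g⁻¹ = g * x * g⁻¹ := hxy
      have h2 : y = x := mul_left_cancel (mul_right_cancel h1)
      rw [← h2]
      exact hy

theorem DEC_stbsup {G : Type} [Group G] {g : G} {E F : Subgroup G} (hE : Stb g E) (hF : Stb g F) :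
    Stb g (E ⊔ F) := by
  rw [DEC_stb] at hE hF ⊢
  rw [Subgroup.map_sup, hE, hF]

theorem DEC_stbcen {G : Type} [Group G] {g : G} {F : Subgroup G} (hF : ∀ x ∈ F, g * x = x * g) :
    Stb g F := by
  intro x
  constructor
  · intro hx
    rw [hF x hx, mul_inv_cancel_right]
    exact hx
  · intro hx
    have h1 := hF _ hx
    have h2 : g * x * g⁻¹ * g = g * x := by group
    rw [h2] at h1
    have h3 : g * x * g⁻¹ = x := mul_left_cancel h1
    rw [← h3]
    exact hx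

theorem DEC_stbinf {G : Type} [Group G] {g : G} {E F : Subgroup G} (hE : Stb g E) (hF : Stb g F) :
    Stb g (E ⊓ F) := by
  intro x
  rw [Subgroup.mem_inf, Subgroup.mem_inf, ← hE x, ← hF x]

theorem DEC_stbnorm {G : Type} [Group G] {g : G} {N : Subgroup G} (hN : N.Normal) :
    Stb g N := by
  intro x
  constructor
  · intro hx
    exact hN.conj_mem x hx g
  · intro hx
    have h1 := hN.conj_mem _ hx g⁻¹
    have h2 : g⁻¹ * (g * x * g⁻¹) * g⁻¹⁻¹ = x := by group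
    rwa [h2] at h1

/-- the sum over pairs -/
theorem DEC_bij {G : Type} [Group G] [Finite G] {p : ℕ} {N : Subgroup G} (hN : N.Normal) {g : G}
    {E : Subgroup G} (hE : EAb p E) (a b : Subgroup G → ℤ) :
    ∑ E' ∈ FS (fun E' : Subgroup G => E' ≤ E ∧ Stb g E'),
      ∑ F ∈ FS (fun F : Subgroup G => F ≤ E' ∧ F ⊓ N = ⊥ ∧ F ⊔ (E' ⊓ N) = E' ∧
        ∀ x ∈ F, g * x = x * g), a F * b (E' ⊓ N) =
    (∑ D ∈ FS (fun D : Subgroup G => D ≤ E ⊓ N ∧ Stb g D), b D) *
      ∑ F ∈ FS (fun F : Subgroup G => F ≤ E ∧ F ⊓ N = ⊥ ∧ ∀ x ∈ F, g * x = x * g), a F := by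
  classical
  rw [Finset.sum_mul_sum, Finset.sum_sigma', Finset.sum_sigma']
  have key : ∀ D F : Subgroup G, D ≤ E ⊓ N → F ≤ E → F ⊓ N = ⊥ → (F ⊔ D) ⊓ N = D := by
    intro D F hD hF hFN
    apply le_antisymm
    · rintro x ⟨hx, hxN⟩
      obtain ⟨f, hf, d, hd, rfl⟩ := DEC_sup (fun x hx y hy => hE.1 x (hF hx) y (hD hy).1) hx
      have hfN : f ∈ F ⊓ N := by
        refine ⟨hf, ?_⟩
        have : f = f * d * d⁻¹ := by group
        rw [this]
        exact N.mul_mem hxN (N.inv_mem (hD hd).2)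
      rw [hFN, Subgroup.mem_bot] at hfN
      rw [hfN, one_mul]
      exact hd
    · exact le_inf le_sup_right (hD.trans inf_le_right)
  refine Finset.sum_nbij' (i := fun q => ⟨q.1 ⊓ N, q.2⟩) (j := fun q => ⟨q.2 ⊔ q.1, q.2⟩)
    ?_ ?_ ?_ ?_ ?_
  · rintro ⟨E', F⟩ hq
    rw [Finset.mem_sigma, mem_FS, mem_FS] at hq
    rw [Finset.mem_sigma, mem_FS, mem_FS]
    obtain ⟨⟨h1, h2⟩, h3, h4, h5, h6⟩ := hq
    exact ⟨⟨inf_le_inf_right N h1, DEC_stbinf h2 (DEC_stbnorm hN)⟩, h3.trans h1, h4, h6⟩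
  · rintro ⟨D, F⟩ hq
    rw [Finset.mem_sigma, mem_FS, mem_FS] at hq
    rw [Finset.mem_sigma, mem_FS, mem_FS]
    obtain ⟨⟨h1, h2⟩, h3, h4, h5⟩ := hq
    refine ⟨⟨sup_le h3 (h1.trans inf_le_left), DEC_stbsup (DEC_stbcen h5) h2⟩, le_sup_left, h4, ?_, h5⟩
    show F ⊔ ((F ⊔ D) ⊓ N) = F ⊔ D
    rw [key D F h1 h3 h4]
  · rintro ⟨E', F⟩ hq
    rw [Finset.mem_sigma, mem_FS, mem_FS] at hq
    obtain ⟨⟨h1, h2⟩, h3, h4, h5, h6⟩ := hq
    show (⟨F ⊔ (E' ⊓ N), F⟩ : (_ : Subgroup G) × Subgroup G) = ⟨E', F⟩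
    rw [show F ⊔ (E' ⊓ N) = E' from h5]
  · rintro ⟨D, F⟩ hq
    rw [Finset.mem_sigma, mem_FS, mem_FS] at hq
    obtain ⟨⟨h1, h2⟩, h3, h4, h5⟩ := hq
    show (⟨(F ⊔ D) ⊓ N, F⟩ : (_ : Subgroup G) × Subgroup G) = ⟨D, F⟩
    rw [key D F h1 h3 h4]
  · rintro ⟨E', F⟩ hq
    exact mul_comm _ _

theorem DEC (hMB : MB_stmt) (hMU : MU_stmt) : DEC_stmt := by
  intro G _ _ p N hN g hg E hE hgE
  symm
  refine hMU G g (fun E => EAb p E ∧ Stb g E) (fun E => ∑ F ∈ FS (fun F : Subgroup G =>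
    F ≤ E ∧ F ⊓ N = ⊥ ∧ F ⊔ (E ⊓ N) = E ∧ ∀ x ∈ F, g * x = x * g), Mb 1 F * Mb g (E ⊓ N))
    (fun E h => h.2) ?_ ?_ E ⟨hE, hgE⟩
  · rintro E F ⟨h1, h2⟩ h3 h4
    exact ⟨⟨fun x hx y hy => h1.1 x (h3 hx) y (h3 hy), fun x hx => h1.2 x (h3 hx)⟩, h4⟩
  · rintro E ⟨hE, hgE⟩
    have hst : Stb g (E ⊓ N) := DEC_stbinf hgE (DEC_stbnorm hN)
    have h0 := DEC_bij (g := g) hN hE (fun F => Mb 1 F) (fun D => Mb g D)
    by_cases hEN : E ⊓ N = ⊥
    · have h1 := (hMB G g (E ⊓ N) hst).1 hEN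
      rw [h1, one_mul] at h0
      have h2 : (fun F : Subgroup G => F ≤ E ∧ F ⊓ N = ⊥ ∧ ∀ x ∈ F, g * x = x * g) =
          (fun F : Subgroup G => F ≤ E ∧ Stb 1 F) := by
        funext F
        apply propext
        constructor
        · rintro ⟨h, _, _⟩
          refine ⟨h, fun x => ?_⟩
          rw [one_mul, inv_one, mul_one]
        · rintro ⟨h, _⟩
          refine ⟨h, ?_, ?_⟩
          · rw [eq_bot_iff, ← hEN]
            exact inf_le_inf_right N h
          · intro x hx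
            have hxE := h hx
            have h3 : x * g * x⁻¹ * g⁻¹ ∈ E ⊓ N := by
              refine ⟨?_, ?_⟩
              · have h4 : g * x⁻¹ * g⁻¹ ∈ E := (hgE _).1 (E.inv_mem hxE)
                have h5 : x * g * x⁻¹ * g⁻¹ = x * (g * x⁻¹ * g⁻¹) := by group
                rw [h5]
                exact E.mul_mem hxE h4
              · exact N.mul_mem (hN.conj_mem g hg x) (N.inv_mem hg)
            rw [hEN, Subgroup.mem_bot] at h3
            rw [mul_inv_eq_one, mul_inv_eq_iff_eq_mul] at h3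
            exact h3.symm
      rw [h2] at h0
      have h1' : Stb (1 : G) E := fun x => by rw [one_mul, inv_one, mul_one]
      refine ⟨fun h => ?_, fun h => ?_⟩
      · exact h0.trans ((hMB G 1 E h1').1 h)
      · exact h0.trans ((hMB G 1 E h1').2 h)
    · have h1 := (hMB G g (E ⊓ N) hst).2 hEN
      rw [h1, zero_mul] at h0
      refine ⟨fun h => ?_, fun _ => h0⟩
      exfalso
      apply hEN
      rw [h, bot_inf_eq]

end LEQ
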