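import Pool.Agent.helper82.LEQ.Spec

set_option autoImplicit false

namespace LEQ

open scoped BigOperators
open QS (Lef EAb)

theorem TR_XS {α β : Type} [PartialOrder α] [Finite α] [PartialOrder β] [Finite β]
    (φ : α ↪o β) {P : α → Prop} {Q : β → Prop} (h1 : ∀ a, P a ↔ Q (φ a))
    (h2 : ∀ b, Q b → ∃ a, φ a = b) : XS P = XS Q := by
  classical
  unfold XS
  refine Finset.sum_bij (fun s _ => s.map φ.toEmbedding) ?_ ?_ ?_ ?_
  · intro s hs
    rw [mem_FS] at hs ⊢
    refine ⟨?_, ?_⟩
    · intro x hx y hy hxy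
      rw [Finset.mem_coe, Finset.mem_map] at hx hy
      obtain ⟨a, ha, rfl⟩ := hx
      obtain ⟨b, hb, rfl⟩ := hy
      have hab : a ≠ b := fun h => hxy (by rw [h])
      rcases hs.1 ha hb hab with h | h
      · exact Or.inl (φ.le_iff_le.2 h)
      · exact Or.inr (φ.le_iff_le.2 h)
    · intro x hx
      rw [Finset.mem_map] at hx
      obtain ⟨a, ha, rfl⟩ := hx
      exact (h1 a).1 (hs.2 a ha)
  · intro s _ t _ hst
    exact Finset.map_injective _ hst
  · intro t ht
    rw [mem_FS] at ht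
    refine ⟨FS (fun a => φ a ∈ t), ?_, ?_⟩
    · rw [mem_FS]
      refine ⟨?_, ?_⟩
      · intro x hx y hy hxy
        rw [Finset.mem_coe, mem_FS] at hx hy
        have hxy' : φ x ≠ φ y := fun h => hxy (φ.injective h)
        rcases ht.1 hx hy hxy' with h | h
        · exact Or.inl (φ.le_iff_le.1 h)
        · exact Or.inr (φ.le_iff_le.1 h)
      · intro x hx
        rw [mem_FS] at hx
        exact (h1 x).2 (ht.2 _ hx)
    · ext b
      rw [Finset.mem_map]
      constructor
      · rintro ⟨a, ha, rfl⟩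
        rw [mem_FS] at ha
        exact ha
      · intro hb
        obtain ⟨a, rfl⟩ := h2 b (ht.2 b hb)
        exact ⟨a, mem_FS.2 hb, rfl⟩
  · intro s _
    rw [Finset.card_map]

/-- the embedding of the subgroups of a subgroup -/
noncomputable def TR_map {G : Type} [Group G] (H : Subgroup G) : Subgroup H ↪o Subgroup G where
  toFun := fun E => E.map H.subtype
  inj' := Subgroup.map_injective H.subtype_injective
  map_rel_iff' := Subgroup.map_le_map_iff_of_injective H.subtype_injective

theorem TR_bot {G : Type} [Group G] {H : Subgroup G} {E : Subgroup H} :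
    E.map H.subtype = ⊥ ↔ E = ⊥ := Subgroup.map_eq_bot_iff_of_injective E H.subtype_injective

theorem TR_stb {G : Type} [Group G] {H : Subgroup G} {h : H} {E : Subgroup H} :
    Stb h E ↔ Stb (h : G) (E.map H.subtype) := by
  constructor
  · intro hE x
    constructor
    · rintro ⟨y, hy, rfl⟩
      exact ⟨h * y * h⁻¹, (hE y).1 hy, rfl⟩
    · rintro ⟨y, hy, hxy⟩
      refine ⟨h⁻¹ * y * h, ?_, ?_⟩
      · apply (hE _).2
        have : h * (h⁻¹ * y * h) * h⁻¹ = y := by group
        rw [this]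
        exact hy
      · have h1 : (y : G) = h * x * (h : G)⁻¹ := hxy
        show (h : G)⁻¹ * (y : G) * h = x
        rw [h1]
        group
  · intro hE x
    have h1 := hE (x : G)
    have h2 : ∀ z : H, (z : G) ∈ E.map H.subtype ↔ z ∈ E := by
      intro z
      constructor
      · rintro ⟨y, hy, hyz⟩
        have : y = z := Subtype.ext hyz
        rw [← this]
        exact hy
      · intro hz
        exact ⟨z, hz, rfl⟩
    rw [← h2 x, h1]
    exact h2 (h * x * h⁻¹)

theorem TR_eab {G : Type} [Group G] {H : Subgroup G} {p : ℕ} {E : Subgroup H} :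
    EAb p E ↔ EAb p (E.map H.subtype) := by
  constructor
  · rintro ⟨h1, h2⟩
    refine ⟨?_, ?_⟩
    · rintro _ ⟨x, hx, rfl⟩ _ ⟨y, hy, rfl⟩
      have := h1 x hx y hy
      rw [← map_mul, this, map_mul]
    · rintro _ ⟨x, hx, rfl⟩
      have := h2 x hx
      rw [← map_pow, this, map_one]
  · rintro ⟨h1, h2⟩
    refine ⟨?_, ?_⟩
    · intro x hx y hy
      exact Subtype.ext (h1 x ⟨x, hx, rfl⟩ y ⟨y, hy, rfl⟩)
    · intro x hx
      exact Subtype.ext (h2 x ⟨x, hx, rfl⟩)

theorem TR_surj {G : Type} [Group G] {H : Subgroup G} {E : Subgroup G} (h : E ≤ H) :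
    (E.subgroupOf H).map H.subtype = E := by
  rw [Subgroup.subgroupOf_map_subtype]
  exact inf_eq_left.2 h

theorem TR_Mb {G : Type} [Group G] [Finite G] {H : Subgroup G} (h : H) (E : Subgroup H) :
    Mb h E = Mb (h : G) (E.map H.subtype) := by
  unfold Mb
  by_cases hE : E = ⊥
  · rw [if_pos hE, if_pos (TR_bot.2 hE)]
  · rw [if_neg hE, if_neg (fun h' => hE (TR_bot.1 h'))]
    refine TR_XS (TR_map H) ?_ ?_
    · intro F
      refine and_congr (not_congr TR_bot.symm) (and_congr ?_ TR_stb)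
      exact (TR_map H).lt_iff_lt.symm
    · rintro F ⟨_, h2, _⟩
      refine ⟨F.subgroupOf H, TR_surj ?_⟩
      refine h2.le.trans ?_
      rintro _ ⟨x, _, rfl⟩
      exact x.2

theorem TR (hLM : LM_stmt) : TR_stmt := by
  intro G _ _ p H h
  rw [hLM H p h]
  unfold Ls
  congr 1
  refine Finset.sum_bij (fun E _ => E.map H.subtype) ?_ ?_ ?_ ?_
  · intro E hE
    rw [mem_FS] at hE ⊢
    refine ⟨?_, TR_eab.1 hE.2.1, TR_stb.1 hE.2.2⟩
    rintro _ ⟨x, _, rfl⟩
    exact x.2
  · intro E _ F _ hEF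
    exact Subgroup.map_injective H.subtype_injective hEF
  · intro E hE
    rw [mem_FS] at hE
    refine ⟨E.subgroupOf H, ?_, TR_surj hE.1⟩
    rw [mem_FS]
    refine ⟨le_top, ?_, ?_⟩
    · rw [TR_eab, TR_surj hE.1]
      exact hE.2.1
    · rw [TR_stb, TR_surj hE.1]
      exact hE.2.2
  · intro E _
    exact TR_Mb h E

end LEQ
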