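import Pool.Agent.helper82.LEQ.Spec

set_option autoImplicit false

namespace LEQ

open scoped BigOperators
open QS (Lef EAb)

theorem W1_XS {α : Type} [PartialOrder α] [Finite α] {P Q : α → Prop} (h : ∀ x, P x ↔ Q x) :
    XS P = XS Q := by
  have : P = Q := funext fun x => propext (h x)
  rw [this]

theorem W1_pg {G : Type} [Group G] {p : ℕ} {E : Subgroup G} (h : EAb p E) : IsPGroup p E := by
  intro x
  refine ⟨1, ?_⟩
  rw [pow_one]
  exact Subtype.ext (h.2 x.1 x.2)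

theorem W1 (hXT : XT_stmt) (hLM : LM_stmt) (hPHI : PHI_stmt) : W1_stmt := by
  intro G _ _ p hp h
  classical
  rw [hLM G p h, hXT]
  unfold Ls
  have h0 : (⊥ : Subgroup G) ∈ FS (fun E : Subgroup G => E ≤ ⊤ ∧ EAb p E ∧ Stb h E) := by
    rw [mem_FS]
    refine ⟨le_top, ⟨?_, ?_⟩, ?_⟩
    · intro x hx y hy
      rw [Subgroup.mem_bot] at hx hy
      rw [hx, hy]
    · intro x hx
      rw [Subgroup.mem_bot] at hx
      rw [hx, one_pow]
    · intro x
      rw [Subgroup.mem_bot, Subgroup.mem_bot, conj_eq_one_iff]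
  rw [← Finset.add_sum_erase _ _ h0]
  have h1 : Mb h (⊥ : Subgroup G) = 1 := by
    unfold Mb
    rw [if_pos rfl]
  rw [h1]
  have h2 : ∑ x ∈ (FS (fun E : Subgroup G => E ≤ ⊤ ∧ EAb p E ∧ Stb h E)).erase ⊥, Mb h x =
      ∑ x ∈ FS (fun P : Subgroup G => P ≠ ⊥ ∧ IsPGroup p P ∧ Stb h P), Mb h x := by
    apply Finset.sum_subset
    · intro x hx
      rw [Finset.mem_erase, mem_FS] at hx
      rw [mem_FS]
      exact ⟨hx.1, W1_pg hx.2.2.1, hx.2.2.2⟩
    · intro x hx hx'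
      rw [mem_FS] at hx
      rw [Finset.mem_erase, mem_FS] at hx'
      apply hPHI G p hp h x hx.2.1 hx.2.2
      intro hE
      exact hx' ⟨hx.1, le_top, hE, hx.2.2⟩
  have h3 : ∑ x ∈ FS (fun P : Subgroup G => P ≠ ⊥ ∧ IsPGroup p P ∧ Stb h P), Mb h x =
      ∑ x ∈ FS (fun P : Subgroup G => P ≠ ⊥ ∧ IsPGroup p P ∧ Stb h P),
        XS (fun y : Subgroup G => (y ≠ ⊥ ∧ IsPGroup p y ∧ Stb h y) ∧ y < x) := by
    apply Finset.sum_congr rfl
    intro x hx
    rw [mem_FS] at hx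
    unfold Mb
    rw [if_neg hx.1]
    apply W1_XS
    intro F
    constructor
    · rintro ⟨a, b, c⟩
      exact ⟨⟨a, hx.2.1.to_le b.le, c⟩, b⟩
    · rintro ⟨⟨a, _, c⟩, b⟩
      exact ⟨a, b, c⟩
  rw [h2, h3]
  ring

end LEQ
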